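import Pool.Agent.H25.CFL.Targets

/-!
# MP_e37c09_lc, row LW: one threshold for all small cofinalities
-/

set_option autoImplicit false

open Ordinal Cardinal Order Set
open scoped ZFSet

universe u

namespace Pool.Agent.H46.CFL

open _root_.HD Pool.Agent.H25.CFL

theorem pf_LW (hL1 : Pool.Agent.H25.CFL.T_L1.{u}) (hHCE : Pool.Agent.H25.CFL.T_HCE.{u}) :
    Pool.Agent.H25.CFL.T_LW.{u} := by
  intro N lam hreg hw hN hns
  obtain ⟨h, c, hc⟩ := hHCE
  have key : ∀ M : Cardinal.{u}, M.IsRegular → M < lam.cof → M < N → ∃ th, Law1 M lam th :=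
    fun M h1 h2 h3 => hL1 M lam h c ⟨hc, h1, hreg, h2, hns M h1 h2 h3⟩
  obtain ⟨th, hth⟩ := key ℵ₀ isRegular_aleph0 hw hN
  refine ⟨th, hth.le, hth.cof, ?_, hth.top, hth.cov⟩
  intro M h1 h2 h3
  obtain ⟨t, ht⟩ := key M h1 h2 h3
  have hle : th ≤ t := by
    by_contra hlt
    push Not at hlt
    obtain ⟨a, ha1, ha2, ha3, ha4⟩ := hth.unb t hlt
    have := ht.top a ha1.le (ha2.trans_le hth.le) ha3
    rw [ha4] at this
    exact absurd hw (not_lt.2 this)
  have hge : t ≤ th := by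
    by_contra hlt
    push Not at hlt
    obtain ⟨a, ha1, ha2, ha3, ha4⟩ := ht.unb th hlt
    have := hth.top a ha1.le (ha2.trans_le ht.le) ha3
    rw [ha4] at this
    exact absurd h2 (not_lt.2 this)
  rw [le_antisymm hle hge]
  exact ht.unb

end Pool.Agent.H46.CFL
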